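import Pool.Agent.Q117.LF.Stm5
import Pool.Agent.Helper923.HMertens

/-! Project LF (helper117), job AVG: the average of products of local factors over a short window. -/

set_option autoImplicit false

namespace Pool.Agent.Q184.LF

open Finset Filter Pool.Agent.Q117.LF

section
open Classical

theorem powb (N : ℕ) {t : ℝ} (h0 : 0 ≤ t) (h1 : t ≤ 1) : (1 + 2 * t) ^ N ≤ 1 + (3 ^ N - 1) * t := by
  induction N with
  | zero => simp
  | succ n ih =>
    have h3 : (1 : ℝ) ≤ 3 ^ n := one_le_pow₀ (by norm_num)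
    calc (1 + 2 * t) ^ (n + 1) = (1 + 2 * t) ^ n * (1 + 2 * t) := pow_succ _ _
      _ ≤ (1 + (3 ^ n - 1) * t) * (1 + 2 * t) := mul_le_mul_of_nonneg_right ih (by linarith)
      _ = 1 + 2 * t + (3 ^ n - 1) * t + 2 * (3 ^ n - 1) * (t * t) := by ring
      _ ≤ 1 + 2 * t + (3 ^ n - 1) * t + 2 * (3 ^ n - 1) * (t * 1) := by
          gcongr
      _ = 1 + (3 ^ (n + 1) - 1) * t := by ring

/-- the local product -/
noncomputable def lp (c : ℝ) (y : ℕ) (m : ℤ) : ℝ :=
  ∏ p ∈ (Icc 1 y).filter Nat.Prime, (if (p : ℤ) ∣ m then (1 + c / (p : ℝ)) else 1)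

theorem GN_lp (c : ℝ) (y : ℕ) (m : ℤ) : GN c y m = lp c y m := by
  unfold GN lp
  rw [← Finset.prod_filter, Finset.filter_filter]

theorem lp_nonneg {c : ℝ} (hc : 0 ≤ c) (y : ℕ) (m : ℤ) : 0 ≤ lp c y m := by
  unfold lp
  refine Finset.prod_nonneg fun p _ => ?_
  split_ifs <;> positivity

theorem lp_pow (N y : ℕ) (m : ℤ) : lp 2 y m ^ N ≤ lp (3 ^ N) y m := by
  unfold lp
  rw [← Finset.prod_pow]
  refine Finset.prod_le_prod (fun p _ => ?_) fun p hp => ?_
  · split_ifs <;> positivity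
  · have hp1 : (1 : ℝ) ≤ p := by exact_mod_cast (Finset.mem_Icc.1 (Finset.mem_filter.1 hp).1).1
    split_ifs
    · have h0 : 0 ≤ 1 / (p : ℝ) := by positivity
      have h1 : 1 / (p : ℝ) ≤ 1 := by rw [div_le_one (by linarith)]; exact hp1
      have h2 := powb N h0 h1
      have h3 : (1 : ℝ) + 2 / p = 1 + 2 * (1 / p) := by ring
      rw [h3]
      refine h2.trans ?_
      have : (3 : ℝ) ^ N / p = 3 ^ N * (1 / p) := by ring
      rw [this]
      nlinarith
    · simp

theorem card_primes {m : ℤ} (hm : m ≠ 0) {S : Finset ℕ} (hS : ∀ p ∈ S, p.Prime ∧ (p : ℤ) ∣ m) :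
    2 ^ S.card ≤ m.natAbs := by
  have hm0 : m.natAbs ≠ 0 := Int.natAbs_ne_zero.2 hm
  have h1 : ∏ p ∈ S, p ∣ m.natAbs :=
    Finset.prod_primes_dvd _ (fun p hp => (hS p hp).1.prime)
      (fun p hp => Int.natCast_dvd.1 (hS p hp).2)
  refine le_trans ?_ (Nat.le_of_dvd (Nat.pos_of_ne_zero hm0) h1)
  rw [← Finset.prod_const]
  exact Finset.prod_le_prod' fun p hp => (hS p hp).1.two_le

/-- the primes larger than `log X` do not matter -/
theorem GN_le {X : ℝ} (hX : 3 ≤ X) {m : ℤ} (hm : m ≠ 0) (hmX : |(m : ℝ)| ≤ X ^ 3) :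
    GN 2 ⌊X⌋₊ m ≤ Real.exp (6 / Real.log 2) * lp 2 ⌊Real.log X⌋₊ m := by
  rw [GN_lp]
  have hX0 : 0 < X := by linarith
  have hlog1 : 1 < Real.log X := by
    rw [Real.lt_log_iff_exp_lt hX0]
    exact Real.exp_one_lt_three.trans_le hX
  have hlogX : Real.log X ≤ X := (Real.log_le_sub_one_of_pos hX0).trans (by linarith)
  set w := ⌊Real.log X⌋₊ with hw
  set y := ⌊X⌋₊ with hy
  have hwy : w ≤ y := Nat.floor_mono hlogX
  have hsplit := (Finset.prod_filter_mul_prod_filter_not ((Icc 1 y).filter Nat.Prime) (fun p => p ≤ w)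
    (fun p : ℕ => (if (p : ℤ) ∣ m then (1 + 2 / (p : ℝ)) else 1))).symm
  have h1 : ((Icc 1 y).filter Nat.Prime).filter (fun p => p ≤ w) = (Icc 1 w).filter Nat.Prime := by
    ext p
    simp only [Finset.mem_filter, Finset.mem_Icc]
    constructor
    · rintro ⟨⟨⟨h1, _⟩, h3⟩, h4⟩
      exact ⟨⟨h1, h4⟩, h3⟩
    · rintro ⟨⟨h1, h4⟩, h3⟩
      exact ⟨⟨⟨h1, h4.trans hwy⟩, h3⟩, h4⟩
  rw [h1] at hsplit
  unfold lp
  rw [hsplit, mul_comm]
  refine mul_le_mul_of_nonneg_right ?_ (Finset.prod_nonneg fun p _ => by split_ifs <;> positivity)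
  rw [← Finset.prod_filter]
  set S := (((Icc 1 y).filter Nat.Prime).filter (fun p => ¬ p ≤ w)).filter (fun p : ℕ => (p : ℤ) ∣ m) with hS
  have hSp : ∀ p ∈ S, p.Prime ∧ (p : ℤ) ∣ m ∧ w < p := by
    intro p hp
    rw [hS, Finset.mem_filter, Finset.mem_filter, Finset.mem_filter] at hp
    exact ⟨hp.1.1.2, hp.2, not_le.1 hp.1.2⟩
  have hcard := card_primes hm (fun p hp => ⟨(hSp p hp).1, (hSp p hp).2.1⟩)
  have hk : (S.card : ℝ) * Real.log 2 ≤ 3 * Real.log X := by
    have h2 : (2 : ℝ) ^ S.card ≤ X ^ 3 := by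
      refine le_trans ?_ hmX
      have h3 : ((2 ^ S.card : ℕ) : ℝ) ≤ (m.natAbs : ℝ) := by exact_mod_cast hcard
      rw [Nat.cast_natAbs, Int.cast_abs] at h3
      simpa using h3
    have h3 := Real.log_le_log (by positivity) h2
    rwa [Real.log_pow, Real.log_pow] at h3
  have hl2 : 0 < Real.log 2 := Real.log_pos (by norm_num)
  have h2 : ∏ p ∈ S, (1 + 2 / (p : ℝ)) ≤ ∏ _p ∈ S, Real.exp (2 / Real.log X) := by
    refine Finset.prod_le_prod (fun p _ => by positivity) fun p hp => ?_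
    have h3 : Real.log X < p := by
      have := (hSp p hp).2.2
      rw [hw, Nat.floor_lt (by linarith)] at this
      exact this
    have h4 : 2 / (p : ℝ) ≤ 2 / Real.log X := by
      apply div_le_div_of_nonneg_left (by norm_num) (by linarith) h3.le
    have h5 := Real.add_one_le_exp (2 / Real.log X)
    linarith
  refine h2.trans ?_
  rw [Finset.prod_const, ← Real.exp_nat_mul]
  apply Real.exp_le_exp.2
  rw [le_div_iff₀ hl2]
  have h3 : (S.card : ℝ) * (2 / Real.log X) * Real.log 2 =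
      2 / Real.log X * ((S.card : ℝ) * Real.log 2) := by ring
  rw [h3]
  have h4 : 0 < Real.log X := by linarith
  calc 2 / Real.log X * ((S.card : ℝ) * Real.log 2) ≤ 2 / Real.log X * (3 * Real.log X) := by gcongr
    _ = 6 := by field_simp; norm_num

/-- the number of solutions of a linear congruence -/
theorem count {a1 : ℕ} {α β : ℤ} (hα : α ≠ 0) (hαa : |α| ≤ a1) {e : ℕ} (he : 0 < e) (L : ℕ) :
    (((Icc (-(L : ℤ)) L).filter (fun d => (e : ℤ) ∣ α * d + β)).card : ℝ) ≤ 2 * L * a1 / e + 1 := by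
  set S := (Icc (-(L : ℤ)) L).filter (fun d => (e : ℤ) ∣ α * d + β) with hS
  set h : ℕ := Nat.gcd e α.natAbs with hh
  have hαn : α.natAbs ≠ 0 := Int.natAbs_ne_zero.2 hα
  have hhpos : 0 < h := Nat.gcd_pos_of_pos_left _ he
  obtain ⟨g, hg⟩ : h ∣ e := Nat.gcd_dvd_left _ _
  have hgpos : 0 < g := by
    rcases Nat.eq_zero_or_pos g with h0 | h0
    · rw [h0, mul_zero] at hg; omega
    · exact h0
  have hha : h ≤ a1 := by
    have h1 : h ≤ α.natAbs := Nat.le_of_dvd (Nat.pos_of_ne_zero hαn) (Nat.gcd_dvd_right _ _)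
    have h2 : (α.natAbs : ℤ) ≤ a1 := by rw [Int.natCast_natAbs]; exact hαa
    omega
  have hcong : ∀ d ∈ S, ∀ d' ∈ S, (g : ℤ) ∣ d - d' := by
    intro d hd d' hd'
    have h1 := (Finset.mem_filter.1 hd).2
    have h2 := (Finset.mem_filter.1 hd').2
    have h3 : (e : ℤ) ∣ α * (d - d') := by
      have := dvd_sub h1 h2
      have e1 : α * d + β - (α * d' + β) = α * (d - d') := by ring
      rwa [e1] at this
    have h4 : e ∣ α.natAbs * (d - d').natAbs := by
      rw [← Int.natAbs_mul]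
      exact Int.natCast_dvd.1 h3
    obtain ⟨b, hb⟩ : h ∣ α.natAbs := Nat.gcd_dvd_right _ _
    have hco : Nat.Coprime g b := by
      have h5 : Nat.gcd (h * g) (h * b) = h := by rw [← hg, ← hb]
      rw [Nat.gcd_mul_left] at h5
      exact Nat.eq_of_mul_eq_mul_left hhpos (by rw [h5, mul_one])
    have h6 : h * g ∣ h * (b * (d - d').natAbs) := by
      rw [← mul_assoc, ← hb, ← hg]; exact h4
    have h7 : g ∣ b * (d - d').natAbs := Nat.dvd_of_mul_dvd_mul_left hhpos h6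
    have h8 : g ∣ (d - d').natAbs := hco.dvd_of_dvd_mul_left h7
    exact Int.natCast_dvd.2 h8
  have hcard : S.card ≤ 2 * L / g + 1 := by
    rw [← Finset.card_range (2 * L / g + 1)]
    refine Finset.card_le_card_of_injOn (fun d => ((d + L) / g).toNat) ?_ ?_
    · intro d hd
      have hd1 := Finset.mem_Icc.1 (Finset.mem_filter.1 hd).1
      simp only [Finset.coe_range, Set.mem_Iio]
      have h1 : (d + L) / (g : ℤ) ≤ ((2 * L / g : ℕ) : ℤ) := by
        push_cast
        apply Int.ediv_le_ediv (by exact_mod_cast hgpos)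
        linarith [hd1.2]
      have h2 : 0 ≤ (d + L) / (g : ℤ) :=
        Int.ediv_nonneg (by linarith [hd1.1]) (by exact_mod_cast hgpos.le)
      show ((d + L) / (g : ℤ)).toNat < 2 * L / g + 1
      omega
    · intro d hd d' hd' hdd
      have hd1 := Finset.mem_Icc.1 (Finset.mem_filter.1 hd).1
      have hd2 := Finset.mem_Icc.1 (Finset.mem_filter.1 hd').1
      simp only at hdd
      have hg0 : (0 : ℤ) < g := by exact_mod_cast hgpos
      have h1 : 0 ≤ (d + L) / (g : ℤ) := Int.ediv_nonneg (by linarith [hd1.1]) hg0.le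
      have h2 : 0 ≤ (d' + L) / (g : ℤ) := Int.ediv_nonneg (by linarith [hd2.1]) hg0.le
      have h3 : (d + L) / (g : ℤ) = (d' + L) / (g : ℤ) := by omega
      have h4 := hcong d hd d' hd'
      have h5 : (d + L) % (g : ℤ) = (d' + L) % (g : ℤ) := by
        apply Int.emod_emod_of_dvd _ (dvd_refl _) |>.symm.trans
        rw [Int.emod_emod_of_dvd _ (dvd_refl _)]
        apply Int.emod_eq_emod_iff_emod_sub_eq_zero.2
        have e1 : d + (L : ℤ) - (d' + L) = d - d' := by ring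
        rw [e1]
        exact Int.emod_eq_zero_of_dvd h4
      have h6 := Int.emod_add_mul_ediv (d + L) g
      have h7 := Int.emod_add_mul_ediv (d' + L) g
      rw [h3, h5] at h6
      linarith
  have hgR : (0 : ℝ) < g := by exact_mod_cast hgpos
  have heR : (0 : ℝ) < e := by exact_mod_cast he
  have h1 : (S.card : ℝ) ≤ 2 * L / g + 1 := by
    have h2 : (S.card : ℝ) ≤ ((2 * L / g : ℕ) : ℝ) + 1 := by exact_mod_cast hcard
    have h3 : ((2 * L / g : ℕ) : ℝ) ≤ ((2 * L : ℕ) : ℝ) / g := Nat.cast_div_le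
    push_cast at h3
    linarith
  refine h1.trans ?_
  have h2 : (e : ℝ) ≤ a1 * g := by
    have : e ≤ a1 * g := by rw [hg]; exact Nat.mul_le_mul_right _ hha
    exact_mod_cast this
  have h3 : 2 * (L : ℝ) / g ≤ 2 * L * a1 / e := by
    rw [div_le_div_iff₀ hgR heR]
    have : 0 ≤ 2 * (L : ℝ) := by positivity
    nlinarith
  linarith

/-- the average of a local product -/
theorem lp_sum {a1 : ℕ} {α β : ℤ} (hα : α ≠ 0) (hαa : |α| ≤ a1) {c : ℝ} (hc : 0 ≤ c) (w L : ℕ) :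
    ∑ d ∈ Icc (-(L : ℤ)) L, lp c w (α * d + β) ≤
      2 * L * a1 * ∏ p ∈ (Icc 1 w).filter Nat.Prime, (1 + c / (p : ℝ) ^ 2) +
        ∏ p ∈ (Icc 1 w).filter Nat.Prime, (1 + c / (p : ℝ)) := by
  set P := (Icc 1 w).filter Nat.Prime with hP
  have h1 : ∀ m : ℤ, lp c w m = ∑ T ∈ P.powerset, (if ∀ p ∈ T, (p : ℤ) ∣ m then ∏ p ∈ T, c / (p : ℝ) else 0) := by
    intro m
    unfold lp
    have h2 : ∀ p ∈ P, (if (p : ℤ) ∣ m then (1 + c / (p : ℝ)) else 1) =
        1 + (if (p : ℤ) ∣ m then c / (p : ℝ) else 0) := by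
      intro p _
      split_ifs <;> simp
    rw [Finset.prod_congr rfl h2, Finset.prod_one_add]
    refine Finset.sum_congr rfl fun T _ => ?_
    by_cases h3 : ∀ p ∈ T, (p : ℤ) ∣ m
    · rw [if_pos h3]
      exact Finset.prod_congr rfl fun p hp => if_pos (h3 p hp)
    · rw [if_neg h3]
      push Not at h3
      obtain ⟨p, hp, hpm⟩ := h3
      exact Finset.prod_eq_zero hp (if_neg hpm)
  simp_rw [h1]
  rw [Finset.sum_comm]
  have h2 : ∀ T ∈ P.powerset, ∑ d ∈ Icc (-(L : ℤ)) L,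
      (if ∀ p ∈ T, (p : ℤ) ∣ α * d + β then ∏ p ∈ T, c / (p : ℝ) else 0) ≤
      2 * L * a1 * ∏ p ∈ T, c / (p : ℝ) ^ 2 + ∏ p ∈ T, c / (p : ℝ) := by
    intro T hT
    have hTP := Finset.mem_powerset.1 hT
    have hTp : ∀ p ∈ T, p.Prime := fun p hp => (Finset.mem_filter.1 (hTP hp)).2
    rw [← Finset.sum_filter, Finset.sum_const, nsmul_eq_mul]
    set e := ∏ p ∈ T, p with he
    have he0 : 0 < e := Finset.prod_pos fun p hp => (hTp p hp).pos
    have h3 : (Icc (-(L : ℤ)) L).filter (fun d => ∀ p ∈ T, (p : ℤ) ∣ α * d + β) ⊆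
        (Icc (-(L : ℤ)) L).filter (fun d => (e : ℤ) ∣ α * d + β) := by
      intro d hd
      rw [Finset.mem_filter] at hd ⊢
      refine ⟨hd.1, ?_⟩
      apply Int.natCast_dvd.2
      exact Finset.prod_primes_dvd _ (fun p hp => (hTp p hp).prime)
        (fun p hp => Int.natCast_dvd.1 (hd.2 p hp))
    have h4 : (((Icc (-(L : ℤ)) L).filter (fun d => ∀ p ∈ T, (p : ℤ) ∣ α * d + β)).card : ℝ) ≤
        2 * L * a1 / e + 1 := by
      refine le_trans ?_ (count hα hαa he0 L (β := β))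
      exact_mod_cast Finset.card_le_card h3
    have h5 : 0 ≤ ∏ p ∈ T, c / (p : ℝ) := Finset.prod_nonneg fun p _ => by positivity
    refine (mul_le_mul_of_nonneg_right h4 h5).trans (le_of_eq ?_)
    have h6 : ∏ p ∈ T, c / (p : ℝ) ^ 2 = (∏ p ∈ T, c / (p : ℝ)) / e := by
      rw [he, Nat.cast_prod, ← Finset.prod_div_distrib]
      refine Finset.prod_congr rfl fun p _ => ?_
      rw [div_div, sq]
    rw [h6]
    ring
  refine (Finset.sum_le_sum h2).trans (le_of_eq ?_)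
  rw [Finset.sum_add_distrib, ← Finset.mul_sum, ← Finset.prod_one_add, ← Finset.prod_one_add]

theorem prod_sq {c : ℝ} (hc : 0 ≤ c) (w : ℕ) :
    ∏ p ∈ (Icc 1 w).filter Nat.Prime, (1 + c / (p : ℝ) ^ 2) ≤ Real.exp (2 * c) := by
  have h1 : ∏ p ∈ (Icc 1 w).filter Nat.Prime, (1 + c / (p : ℝ) ^ 2) ≤
      ∏ p ∈ (Icc 1 w).filter Nat.Prime, Real.exp (c / (p : ℝ) ^ 2) :=
    Finset.prod_le_prod (fun p _ => by positivity) fun p _ => by
      have := Real.add_one_le_exp (c / (p : ℝ) ^ 2)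
      linarith
  refine h1.trans ?_
  rw [← Real.exp_sum]
  apply Real.exp_le_exp.2
  have h2 : ∑ p ∈ (Icc 1 w).filter Nat.Prime, c / (p : ℝ) ^ 2 ≤ ∑ p ∈ Icc 1 w, c / (p : ℝ) ^ 2 :=
    Finset.sum_le_sum_of_subset_of_nonneg (Finset.filter_subset _ _) fun p _ _ => by positivity
  refine h2.trans ?_
  have h3 : ∀ n : ℕ, ∑ p ∈ Icc 1 (n + 1), (1 : ℝ) / (p : ℝ) ^ 2 ≤ 2 - 1 / (n + 1) := by
    intro n
    induction n with
    | zero => norm_num
    | succ n ih =>
      rw [Finset.sum_Icc_succ_top (by omega)]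
      have h4 : (1 : ℝ) / ((n + 1 + 1 : ℕ) : ℝ) ^ 2 ≤ 1 / (n + 1) - 1 / (n + 1 + 1) := by
        push_cast
        have hn : (0 : ℝ) < n + 1 := by positivity
        have e : (1 : ℝ) / (n + 1) - 1 / (n + 1 + 1) = 1 / ((n + 1) * (n + 1 + 1)) := by
          field_simp
          ring
        rw [e]
        apply one_div_le_one_div_of_le (by positivity)
        nlinarith
      push_cast at h4 ih ⊢
      linarith
  have h5 : ∑ p ∈ Icc 1 w, (1 : ℝ) / (p : ℝ) ^ 2 ≤ 2 := by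
    rcases w with _ | n
    · simp
    · have := h3 n
      have h6 : (0 : ℝ) ≤ 1 / (n + 1) := by positivity
      linarith
  have h6 : ∑ p ∈ Icc 1 w, c / (p : ℝ) ^ 2 = c * ∑ p ∈ Icc 1 w, (1 : ℝ) / (p : ℝ) ^ 2 := by
    rw [Finset.mul_sum]
    refine Finset.sum_congr rfl fun p _ => ?_
    ring
  rw [h6]
  nlinarith

/-- Mertens -/
theorem prod_one (c : ℝ) (hc : 0 ≤ c) : ∃ K : ℝ, 0 < K ∧ ∀ w : ℕ, 2 ≤ w →
    ∏ p ∈ (Icc 1 w).filter Nat.Prime, (1 + c / (p : ℝ)) ≤ K * (Real.log w) ^ c := by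
  obtain ⟨C, hC0, hC⟩ := Pool.Agent.Helper923.HMertens.mertens_ratio
  have hl2 : 0 < Real.log 2 := Real.log_pos (by norm_num)
  refine ⟨Real.exp (c * (1 / 2 + C / Real.log 2)) / (Real.log 2) ^ c, by positivity, ?_⟩
  intro w hw
  have hlw : 0 < Real.log w := Real.log_pos (by exact_mod_cast hw)
  have h1 : ∏ p ∈ (Icc 1 w).filter Nat.Prime, (1 + c / (p : ℝ)) ≤
      ∏ p ∈ (Icc 1 w).filter Nat.Prime, Real.exp (c / (p : ℝ)) :=
    Finset.prod_le_prod (fun p _ => by positivity) fun p _ => by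
      have := Real.add_one_le_exp (c / (p : ℝ))
      linarith
  refine h1.trans ?_
  rw [← Real.exp_sum]
  have h2 : ∑ p ∈ (Icc 1 w).filter Nat.Prime, c / (p : ℝ) ≤
      c * (1 / 2 + C / Real.log 2) + c * Real.log (Real.log w / Real.log 2) := by
    have h3 : (Icc 1 w).filter Nat.Prime = insert 2 ((Ioc 2 w).filter Nat.Prime) := by
      ext p
      simp only [Finset.mem_filter, Finset.mem_Icc, Finset.mem_insert, Finset.mem_Ioc]
      constructor
      · rintro ⟨⟨h3, h4⟩, h5⟩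
        rcases eq_or_lt_of_le h5.two_le with h6 | h6
        · left; exact h6.symm
        · right; exact ⟨⟨h6, h4⟩, h5⟩
      · rintro (rfl | ⟨⟨h3, h4⟩, h5⟩)
        · exact ⟨⟨by norm_num, hw⟩, Nat.prime_two⟩
        · exact ⟨⟨by omega, h4⟩, h5⟩
    have h4 : ∑ p ∈ (Icc 1 w).filter Nat.Prime, c / (p : ℝ) =
        c * ∑ p ∈ (Icc 1 w).filter Nat.Prime, (1 : ℝ) / (p : ℝ) := by
      rw [Finset.mul_sum]
      refine Finset.sum_congr rfl fun p _ => ?_
      ring
    rw [h4, h3, Finset.sum_insert (by simp)]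
    have h5 := (abs_le.1 (hC 2 w le_rfl hw)).2
    have h6 : ∑ p ∈ (Ioc 2 w).filter Nat.Prime, (1 : ℝ) / p ≤
        Real.log (Real.log w / Real.log 2) + C / Real.log 2 := by
      have e : ((2 : ℕ) : ℝ) = 2 := by norm_num
      rw [e] at h5
      linarith
    rw [← mul_add]
    apply mul_le_mul_of_nonneg_left _ hc
    push_cast
    linarith
  refine (Real.exp_le_exp.2 h2).trans (le_of_eq ?_)
  have h7 : Real.exp (c * Real.log (Real.log w / Real.log 2)) =
      (Real.log w) ^ c / (Real.log 2) ^ c := by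
    rw [mul_comm, Real.exp_mul (Real.log (Real.log w / Real.log 2)) c,
      Real.exp_log (by positivity), Real.div_rpow hlw.le hl2.le]
  rw [Real.exp_add, h7]
  ring

theorem prod_le_sum (N : ℕ) (u : Fin N → ℝ) (hu : ∀ x, 0 ≤ u x) :
    ∏ x, u x ≤ 1 + ∑ x, u x ^ N := by
  rcases Nat.eq_zero_or_pos N with rfl | hN
  · simp
  · have : Nonempty (Fin N) := ⟨⟨0, hN⟩⟩
    obtain ⟨x0, -, hx0⟩ := Finset.exists_max_image Finset.univ u ⟨Classical.arbitrary _, Finset.mem_univ _⟩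
    have h1 : ∏ x, u x ≤ ∏ _x : Fin N, u x0 :=
      Finset.prod_le_prod (fun x _ => hu x) fun x _ => hx0 x (Finset.mem_univ _)
    rw [Finset.prod_const, Finset.card_univ, Fintype.card_fin] at h1
    have h2 : u x0 ^ N ≤ ∑ x, u x ^ N :=
      Finset.single_le_sum (f := fun x => u x ^ N) (fun x _ => pow_nonneg (hu x) N) (Finset.mem_univ x0)
    linarith

theorem avg : St_AVG := by
  intro N a1
  set c : ℝ := 3 ^ N with hc
  have hc0 : 0 ≤ c := by positivity
  obtain ⟨K, hK0, hK⟩ := prod_one c hc0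
  set E : ℝ := Real.exp (6 / Real.log 2) with hE
  have hE0 : 0 < E := Real.exp_pos _
  refine ⟨3 + N * E ^ N * (2 * a1 * Real.exp (2 * c) + K), by positivity, ?_⟩
  -- largeness
  have hev1 : ∀ᶠ X : ℝ in atTop, (Real.log (Real.log X)) ^ c ≤ (Real.log X) ^ (1 / 2 : ℝ) := by
    have h1 : (fun x : ℝ => Real.log x ^ c) =o[atTop] fun x => x ^ (1 / 2 : ℝ) :=
      isLittleO_log_rpow_rpow_atTop c (by norm_num)
    have h2 := h1.bound one_pos
    have h3 : ∀ᶠ x : ℝ in atTop, Real.log x ^ c ≤ x ^ (1 / 2 : ℝ) := by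
      filter_upwards [h2, eventually_ge_atTop (1 : ℝ)] with x hx hx1
      rw [one_mul, Real.norm_eq_abs, Real.norm_eq_abs,
        abs_of_nonneg (Real.rpow_nonneg (Real.log_nonneg hx1) _),
        abs_of_nonneg (Real.rpow_nonneg (by linarith) _)] at hx
      exact hx
    exact Real.tendsto_log_atTop.eventually h3
  have hev : ∀ᶠ X : ℝ in atTop, 3 ≤ X ∧ 3 ≤ Real.log X ∧ (a1 : ℝ) + 1 ≤ X ∧
      (Real.log (Real.log X)) ^ c ≤ (Real.log X) ^ (1 / 2 : ℝ) := by
    filter_upwards [hev1, eventually_ge_atTop (3 : ℝ), eventually_ge_atTop ((a1 : ℝ) + 1),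
      Real.tendsto_log_atTop.eventually (eventually_ge_atTop (3 : ℝ))] with X h1 h2 h3 h4
    exact ⟨h2, h4, h3, h1⟩
  obtain ⟨X0, hX0⟩ := Filter.eventually_atTop.1 hev
  refine ⟨X0, ?_⟩
  intro X hX α β hα hβ L hL
  obtain ⟨hX3, hlog3, hXa, hllog⟩ := hX0 X hX
  set w := ⌊Real.log X⌋₊ with hw
  have hXpos : 0 < X := by linarith
  -- each term
  have hterm : ∀ d ∈ (Icc (-(L : ℤ)) L).filter (fun d => ∀ x, α x * d + β x ≠ 0),
      ∏ x, GN 2 ⌊X⌋₊ (α x * d + β x) ≤ 1 + ∑ x, E ^ N * lp c w (α x * d + β x) := by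
    intro d hd
    rw [Finset.mem_filter, Finset.mem_Icc] at hd
    refine (prod_le_sum N _ fun x => ?_).trans ?_
    · rw [GN_lp]; exact lp_nonneg (by norm_num) _ _
    · refine add_le_add le_rfl (Finset.sum_le_sum fun x _ => ?_)
      have h1 : |((α x * d + β x : ℤ) : ℝ)| ≤ X ^ 3 := by
        push_cast
        have h2 : |(α x : ℝ)| ≤ a1 := by exact_mod_cast (hα x).2
        have h3 : |(d : ℝ)| ≤ X := by
          refine le_trans ?_ hL
          rw [abs_le]
          constructor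
          · exact_mod_cast hd.1.1
          · exact_mod_cast hd.1.2
        have h4 := hβ x
        calc |(α x : ℝ) * d + β x| ≤ |(α x : ℝ) * d| + |(β x : ℝ)| := abs_add_le _ _
          _ = |(α x : ℝ)| * |(d : ℝ)| + |(β x : ℝ)| := by rw [abs_mul]
          _ ≤ a1 * X + X ^ 2 := by gcongr
          _ ≤ X ^ 3 := by
              have : (a1 : ℝ) * X ≤ (X - 1) * X := by
                apply mul_le_mul_of_nonneg_right _ hXpos.le
                linarith
              nlinarith [sq_nonneg X]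
      have h2 := GN_le hX3 (hd.2 x) h1
      have h3 : 0 ≤ GN 2 ⌊X⌋₊ (α x * d + β x) := by
        rw [GN_lp]; exact lp_nonneg (by norm_num) _ _
      calc GN 2 ⌊X⌋₊ (α x * d + β x) ^ N ≤ (E * lp 2 w (α x * d + β x)) ^ N :=
            pow_le_pow_left₀ h3 h2 N
        _ = E ^ N * lp 2 w (α x * d + β x) ^ N := mul_pow _ _ _
        _ ≤ E ^ N * lp c w (α x * d + β x) := by
            apply mul_le_mul_of_nonneg_left (lp_pow N w _) (by positivity)
  refine (Finset.sum_le_sum hterm).trans ?_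
  have h1 : ∑ d ∈ (Icc (-(L : ℤ)) L).filter (fun d => ∀ x, α x * d + β x ≠ 0),
      (1 + ∑ x, E ^ N * lp c w (α x * d + β x)) ≤
      ∑ d ∈ Icc (-(L : ℤ)) L, (1 + ∑ x, E ^ N * lp c w (α x * d + β x)) := by
    refine Finset.sum_le_sum_of_subset_of_nonneg (Finset.filter_subset _ _) fun d _ _ => ?_
    have : 0 ≤ ∑ x, E ^ N * lp c w (α x * d + β x) :=
      Finset.sum_nonneg fun x _ => mul_nonneg (by positivity) (lp_nonneg hc0 _ _)
    linarith
  refine h1.trans ?_
  rw [Finset.sum_add_distrib, Finset.sum_comm]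
  have hu : 0 < Real.log X := by linarith
  have hu1 : (1 : ℝ) ≤ (Real.log X) ^ (1 / 2 : ℝ) :=
    Real.one_le_rpow (by linarith) (by norm_num)
  have h2 : ∑ _d ∈ Icc (-(L : ℤ)) L, (1 : ℝ) = 2 * L + 1 := by
    rw [Finset.sum_const, Int.card_Icc, nsmul_eq_mul, mul_one]
    have : ((L : ℤ) + 1 - (-(L : ℤ))).toNat = 2 * L + 1 := by omega
    rw [this]
    push_cast
    ring
  have h3 : ∀ x : Fin N, ∑ d ∈ Icc (-(L : ℤ)) L, E ^ N * lp c w (α x * d + β x) ≤
      E ^ N * (2 * a1 * Real.exp (2 * c) * L + K * (Real.log X) ^ (1 / 2 : ℝ)) := by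
    intro x
    rw [← Finset.mul_sum]
    apply mul_le_mul_of_nonneg_left _ (by positivity)
    refine (lp_sum (hα x).1 (hα x).2 hc0 w L).trans ?_
    have hw2 : 2 ≤ w := by
      rw [hw]
      apply Nat.le_floor
      push_cast
      linarith
    have h4 := prod_sq hc0 w
    have h5 := hK w hw2
    have h6 : Real.log w ≤ Real.log (Real.log X) := by
      apply Real.log_le_log
      · have : (0 : ℝ) < w := by
          have : 0 < w := by omega
          exact_mod_cast this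
        exact this
      · exact Nat.floor_le hu.le
    have h7 : (Real.log w) ^ c ≤ (Real.log X) ^ (1 / 2 : ℝ) := by
      refine le_trans ?_ hllog
      apply Real.rpow_le_rpow _ h6 hc0
      apply Real.log_nonneg
      exact_mod_cast (by omega : 1 ≤ w)
    calc 2 * (L : ℝ) * a1 * ∏ p ∈ (Icc 1 w).filter Nat.Prime, (1 + c / (p : ℝ) ^ 2) +
          ∏ p ∈ (Icc 1 w).filter Nat.Prime, (1 + c / (p : ℝ))
        ≤ 2 * (L : ℝ) * a1 * Real.exp (2 * c) + K * (Real.log X) ^ (1 / 2 : ℝ) := by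
          refine add_le_add ?_ (h5.trans ?_)
          · exact mul_le_mul_of_nonneg_left h4 (by positivity)
          · exact mul_le_mul_of_nonneg_left h7 hK0.le
      _ = _ := by ring
  have h4 : ∑ x : Fin N, ∑ d ∈ Icc (-(L : ℤ)) L, E ^ N * lp c w (α x * d + β x) ≤
      N * (E ^ N * (2 * a1 * Real.exp (2 * c) * L + K * (Real.log X) ^ (1 / 2 : ℝ))) := by
    refine (Finset.sum_le_sum fun x _ => h3 x).trans ?_
    rw [Finset.sum_const, Finset.card_univ, Fintype.card_fin, nsmul_eq_mul]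
  rw [h2]
  refine (add_le_add le_rfl h4).trans ?_
  set u := (Real.log X) ^ (1 / 2 : ℝ) with hud
  have hL0 : (0 : ℝ) ≤ L := by positivity
  have h5 : (N : ℝ) * (E ^ N * (2 * a1 * Real.exp (2 * c) * L + K * u)) ≤
      N * (E ^ N * ((2 * a1 * Real.exp (2 * c) + K) * (L + u))) := by
    apply mul_le_mul_of_nonneg_left _ (by positivity)
    apply mul_le_mul_of_nonneg_left _ (by positivity)
    have h6 : 0 ≤ 2 * (a1 : ℝ) * Real.exp (2 * c) := by positivity
    have h7 : 0 ≤ 2 * (a1 : ℝ) * Real.exp (2 * c) * u := by positivity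
    have h8 : 0 ≤ K * (L : ℝ) := by positivity
    nlinarith
  calc 2 * (L : ℝ) + 1 + N * (E ^ N * (2 * a1 * Real.exp (2 * c) * L + K * u))
      ≤ 3 * (L + u) + N * (E ^ N * ((2 * a1 * Real.exp (2 * c) + K) * (L + u))) :=
        add_le_add (by linarith) h5
    _ = _ := by ring

end

end Pool.Agent.Q184.LF
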