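import Pool.Agent.Q117.LF.Stm5

/-! Project LF (helper117), job PCO: the sieve product of the union of two systems. -/

set_option autoImplicit false

namespace Pool.Agent.Q184.LF

open Finset Filter Pool.Agent.Q117.LF

section
open Classical

/-- the roots -/
noncomputable def rts {k : ℕ} (al : Fin k → ℕ) (be : Fin k → ℤ) (q : ℕ) : Finset ℕ :=
  (range q).filter (fun n : ℕ => ∃ l, (q : ℤ) ∣ fm al be l n)

theorem om_eq {k : ℕ} (al : Fin k → ℕ) (be : Fin k → ℤ) (q : ℕ) : om al be q = (rts al be q).card := rfl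

/-- the roots of one form -/
noncomputable def rt (a : ℕ) (b : ℤ) (q : ℕ) : Finset ℕ :=
  (range q).filter (fun n : ℕ => (q : ℤ) ∣ (a : ℤ) * n + b)

theorem rt_card {a : ℕ} {b : ℤ} {p : ℕ} (hp : p.Prime) (ha : 1 ≤ a) (hap : a < p) :
    (rt a b p).card ≤ 1 := by
  rw [Finset.card_le_one]
  intro n hn m hm
  unfold rt at hn hm
  rw [Finset.mem_filter, Finset.mem_range] at hn hm
  have h1 : (p : ℤ) ∣ (a : ℤ) * ((n : ℤ) - m) := by
    have := dvd_sub hn.2 hm.2
    have e : (a : ℤ) * n + b - ((a : ℤ) * m + b) = (a : ℤ) * ((n : ℤ) - m) := by ring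
    rwa [e] at this
  have hpp : Prime (p : ℤ) := Nat.prime_iff_prime_int.1 hp
  rcases hpp.dvd_or_dvd h1 with h2 | h2
  · exfalso
    have h3 : p ∣ a := Int.natCast_dvd_natCast.1 h2
    have := Nat.le_of_dvd (by omega) h3
    omega
  · have h3 : (n : ℤ) - m = 0 := by
      apply Int.eq_zero_of_abs_lt_dvd h2
      rw [abs_lt]
      constructor <;> omega
    omega

theorem rts_append {r s : ℕ} (A : Fin r → ℕ) (be : Fin r → ℤ) (A' : Fin s → ℕ) (be' : Fin s → ℤ)
    (q : ℕ) : rts (Fin.append A A') (Fin.append be be') q = rts A be q ∪ rts A' be' q := by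
  unfold rts
  rw [← Finset.filter_or]
  apply Finset.filter_congr
  intro n _
  constructor
  · rintro ⟨l, hl⟩
    induction l using Fin.addCases with
    | left l =>
      left
      refine ⟨l, ?_⟩
      simpa [fm] using hl
    | right l =>
      right
      refine ⟨l, ?_⟩
      simpa [fm] using hl
  · rintro (⟨l, hl⟩ | ⟨l, hl⟩)
    · refine ⟨Fin.castAdd s l, ?_⟩
      simpa [fm] using hl
    · refine ⟨Fin.natAdd r l, ?_⟩
      simpa [fm] using hl

theorem rts_card_le {k : ℕ} (al : Fin k → ℕ) (be : Fin k → ℤ) (q : ℕ) : (rts al be q).card ≤ q :=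
  (Finset.card_filter_le _ _).trans (by rw [Finset.card_range])

theorem rts_card_lt {k : ℕ} {al : Fin k → ℕ} {be : Fin k → ℤ} (h : AdmS al be) {p : ℕ}
    (hp : p.Prime) : (rts al be p).card < p := by
  obtain ⟨n, hn⟩ := h p hp
  have h1 : rts al be p ⊂ range p := by
    rw [Finset.ssubset_iff_subset_ne]
    refine ⟨Finset.filter_subset _ _, fun h2 => ?_⟩
    have h3 : n % p ∈ rts al be p := by
      rw [h2, Finset.mem_range]
      exact Nat.mod_lt _ hp.pos
    unfold rts at h3
    rw [Finset.mem_filter] at h3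
    obtain ⟨-, l, hl⟩ := h3
    apply hn l
    unfold fm at hl ⊢
    have e : (n : ℤ) = ((n % p : ℕ) : ℤ) + (p : ℤ) * ((n / p : ℕ) : ℤ) := by
      exact_mod_cast (Nat.mod_add_div n p).symm
    rw [e]
    have e2 : (al l : ℤ) * (((n % p : ℕ) : ℤ) + (p : ℤ) * ((n / p : ℕ) : ℤ)) + be l =
      ((al l : ℤ) * ((n % p : ℕ) : ℤ) + be l) + (p : ℤ) * ((al l : ℤ) * ((n / p : ℕ) : ℤ)) := by ring
    rw [e2]
    exact dvd_add hl (dvd_mul_right _ _)
  have := Finset.card_lt_card h1
  rwa [Finset.card_range] at this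

theorem rts_card_le_k {k a0 : ℕ} {al : Fin k → ℕ} {be : Fin k → ℤ} {p : ℕ} (hp : p.Prime)
    (ha : ∀ l, 1 ≤ al l ∧ al l ≤ a0) (hpa : a0 < p) : (rts al be p).card ≤ k := by
  have h1 : rts al be p ⊆ Finset.univ.biUnion (fun l => rt (al l) (be l) p) := by
    intro n hn
    unfold rts at hn
    rw [Finset.mem_filter] at hn
    obtain ⟨h2, l, hl⟩ := hn
    rw [Finset.mem_biUnion]
    refine ⟨l, Finset.mem_univ _, ?_⟩
    unfold rt
    rw [Finset.mem_filter]
    exact ⟨h2, hl⟩
  refine (Finset.card_le_card h1).trans (Finset.card_biUnion_le.trans ?_)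
  refine (Finset.sum_le_card_nsmul _ _ 1 fun l _ => rt_card hp (ha l).1 ((ha l).2.trans_lt hpa)).trans ?_
  simp

/-- the number of the pairs with `p ∣ D x l` -/
noncomputable def prs {r s : ℕ} (A : Fin r → ℕ) (be : Fin r → ℤ) (A' : Fin s → ℕ) (be' : Fin s → ℤ)
    (p : ℕ) : Finset (Fin s × Fin r) :=
  Finset.univ.filter (fun z => (p : ℤ) ∣ (A' z.1 : ℤ) * be z.2 - A z.2 * be' z.1)

theorem inter_card {r s a0 : ℕ} {A : Fin r → ℕ} {be : Fin r → ℤ} {A' : Fin s → ℕ} {be' : Fin s → ℤ}
    {p : ℕ} (hp : p.Prime) (ha : ∀ l, 1 ≤ A' l ∧ A' l ≤ a0) (hpa : a0 < p) :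
    (rts A be p ∩ rts A' be' p).card ≤ (prs A be A' be' p).card := by
  have h1 : rts A be p ∩ rts A' be' p ⊆
      (prs A be A' be' p).biUnion (fun z => rt (A' z.1) (be' z.1) p) := by
    intro n hn
    rw [Finset.mem_inter] at hn
    obtain ⟨h2, h3⟩ := hn
    unfold rts at h2 h3
    rw [Finset.mem_filter] at h2 h3
    obtain ⟨h2, l, hl⟩ := h2
    obtain ⟨-, x, hx⟩ := h3
    rw [Finset.mem_biUnion]
    refine ⟨(x, l), ?_, ?_⟩
    · unfold prs
      rw [Finset.mem_filter]
      refine ⟨Finset.mem_univ _, ?_⟩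
      unfold fm at hl hx
      have := dvd_sub (hl.mul_left (A' x : ℤ)) (hx.mul_left (A l : ℤ))
      have e : (A' x : ℤ) * ((A l : ℤ) * n + be l) - (A l : ℤ) * ((A' x : ℤ) * n + be' x) =
        (A' x : ℤ) * be l - A l * be' x := by ring
      rwa [e] at this
    · unfold rt
      rw [Finset.mem_filter]
      exact ⟨h2, hx⟩
  refine (Finset.card_le_card h1).trans (Finset.card_biUnion_le.trans ?_)
  refine (Finset.sum_le_card_nsmul _ _ 1 fun z _ => rt_card hp (ha z.1).1 ((ha z.1).2.trans_lt hpa)).trans ?_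
  simp

/-- the local factor of the product of the `GN` -/
theorem gn_prod {r s : ℕ} (A : Fin r → ℕ) (be : Fin r → ℤ) (A' : Fin s → ℕ) (be' : Fin s → ℤ)
    (y : ℕ) : ∏ x, ∏ l, GN 2 y ((A' x : ℤ) * be l - A l * be' x) =
      ∏ p ∈ (Icc 1 y).filter Nat.Prime, (1 + 2 / (p : ℝ)) ^ (prs A be A' be' p).card := by
  have h1 : ∀ m : ℤ, GN 2 y m =
      ∏ p ∈ (Icc 1 y).filter Nat.Prime, (if (p : ℤ) ∣ m then (1 + 2 / (p : ℝ)) else 1) := by
    intro m
    unfold GN
    rw [← Finset.prod_filter, Finset.filter_filter]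
  simp_rw [h1]
  rw [← Finset.prod_product']
  rw [Finset.prod_comm]
  refine Finset.prod_congr rfl fun p _ => ?_
  rw [← Finset.prod_filter]
  rw [Finset.prod_const]
  rfl

theorem pco : St_PCO := by
  intro r s a0
  set P0 : ℕ := max a0 (2 * (r + s)) + 1 with hP0
  have hP1 : (1 : ℝ) ≤ P0 := by
    have : 1 ≤ P0 := by omega
    exact_mod_cast this
  refine ⟨(P0 : ℝ) ^ P0, by positivity, ?_⟩
  intro y A be A' be' hA hA' hadm
  rw [gn_prod]
  unfold VN
  rw [← Finset.prod_mul_distrib, ← Finset.prod_mul_distrib]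
  set S := (Icc 1 y).filter Nat.Prime with hS
  have key : ∀ p ∈ S, (1 - (om (Fin.append A A') (Fin.append be be') p : ℝ) / p) ≤
      (if p ≤ P0 then (P0 : ℝ) else 1) * ((1 - (om A be p : ℝ) / p) * (1 - (om A' be' p : ℝ) / p) *
        (1 + 2 / (p : ℝ)) ^ (prs A be A' be' p).card) := by
    intro p hpS
    have hp : p.Prime := (Finset.mem_filter.1 hpS).2
    have hp0 : (0 : ℝ) < p := by exact_mod_cast hp.pos
    have hu := om_eq (Fin.append A A') (Fin.append be be') p
    rw [rts_append] at hu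
    have hunion := Finset.card_union_add_card_inter (rts A be p) (rts A' be' p)
    have hue : (rts A be p).card ≤ (rts A be p ∪ rts A' be' p).card :=
      Finset.card_le_card Finset.subset_union_left
    rw [hu, om_eq, om_eq]
    set u := (rts A be p ∪ rts A' be' p).card
    set e := (rts A be p).card with he
    set t := (rts A' be' p).card with ht
    set c := (rts A be p ∩ rts A' be' p).card
    set c' := (prs A be A' be' p).card with hc'
    have hep : e ≤ p := rts_card_le _ _ _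
    have htp : t < p := rts_card_lt hadm hp
    have hepR : (e : ℝ) / p ≤ 1 := by
      rw [div_le_one hp0]; exact_mod_cast hep
    have hg1 : (1 : ℝ) ≤ (1 + 2 / (p : ℝ)) ^ c' := by
      apply one_le_pow₀
      have : 0 ≤ 2 / (p : ℝ) := by positivity
      linarith
    by_cases hpP : p ≤ P0
    · rw [if_pos hpP]
      have h1 : (1 : ℝ) - (u : ℝ) / p ≤ 1 - (e : ℝ) / p := by
        have : (e : ℝ) / p ≤ (u : ℝ) / p := by gcongr
        linarith
      have h2 : (1 : ℝ) / P0 ≤ 1 - (t : ℝ) / p := by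
        have h3 : (t : ℝ) + 1 ≤ p := by exact_mod_cast htp
        have h4 : (t : ℝ) / p ≤ 1 - 1 / p := by
          rw [div_le_iff₀ hp0]
          have : (1 - 1 / (p : ℝ)) * p = p - 1 := by field_simp
          rw [this]; linarith
        have h5 : (1 : ℝ) / P0 ≤ 1 / p := by
          apply one_div_le_one_div_of_le hp0
          exact_mod_cast hpP
        linarith
      have h3 : 0 ≤ 1 - (e : ℝ) / p := by linarith
      have hPpos : (0 : ℝ) < P0 := by linarith
      have h6 : 0 ≤ 1 - (t : ℝ) / p := le_trans (by positivity) h2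
      have h7 : 0 ≤ (1 - (e : ℝ) / p) * (1 - (t : ℝ) / p) := mul_nonneg h3 h6
      calc (1 : ℝ) - (u : ℝ) / p ≤ 1 - (e : ℝ) / p := h1
        _ = P0 * ((1 - (e : ℝ) / p) * (1 / P0) * 1) := by field_simp
        _ ≤ P0 * ((1 - (e : ℝ) / p) * (1 - (t : ℝ) / p) * (1 + 2 / (p : ℝ)) ^ c') := by
          gcongr
    · rw [if_neg hpP, one_mul]
      push Not at hpP
      have ha0p : a0 < p := by omega
      have her : e ≤ r := rts_card_le_k hp hA ha0p
      have hts : t ≤ s := rts_card_le_k hp hA' ha0p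
      have hcc : c ≤ c' := inter_card hp hA' ha0p
      have h1 : (u : ℝ) = e + t - c := by
        have : (u : ℝ) + c = e + t := by exact_mod_cast hunion
        linarith
      have hrs : 2 * ((e : ℝ) + t) ≤ p := by
        have : 2 * (e + t) ≤ p := by omega
        exact_mod_cast this
      have h2 : (1 : ℝ) / 2 ≤ 1 - ((e : ℝ) + t) / p := by
        have : ((e : ℝ) + t) / p ≤ 1 / 2 := by
          rw [div_le_iff₀ hp0]; linarith
        linarith
      have h3 : 1 - ((e : ℝ) + t) / p ≤ (1 - (e : ℝ) / p) * (1 - (t : ℝ) / p) := by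
        have : (1 - (e : ℝ) / p) * (1 - (t : ℝ) / p) =
          1 - ((e : ℝ) + t) / p + (e : ℝ) / p * ((t : ℝ) / p) := by ring
        rw [this]
        have : 0 ≤ (e : ℝ) / p * ((t : ℝ) / p) := by positivity
        linarith
      have h4 : (1 : ℝ) - (u : ℝ) / p ≤
          (1 - (e : ℝ) / p) * (1 - (t : ℝ) / p) * (1 + c * (2 / (p : ℝ))) := by
        have h5 : (1 : ℝ) - (u : ℝ) / p = 1 - ((e : ℝ) + t) / p + (c : ℝ) / p := by
          rw [h1]; ring
        have h6 : (c : ℝ) / p ≤ (1 - (e : ℝ) / p) * (1 - (t : ℝ) / p) * (c * (2 / (p : ℝ))) := by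
          have h7 : (c : ℝ) / p = 1 / 2 * (c * (2 / (p : ℝ))) := by ring
          rw [h7]
          have h8 : 0 ≤ (c : ℝ) * (2 / (p : ℝ)) := by positivity
          have h9 : (1 : ℝ) / 2 ≤ (1 - (e : ℝ) / p) * (1 - (t : ℝ) / p) := h2.trans h3
          exact mul_le_mul_of_nonneg_right h9 h8
        rw [h5]
        calc 1 - ((e : ℝ) + t) / p + (c : ℝ) / p ≤ (1 - (e : ℝ) / p) * (1 - (t : ℝ) / p) +
            (1 - (e : ℝ) / p) * (1 - (t : ℝ) / p) * (c * (2 / (p : ℝ))) := add_le_add h3 h6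
          _ = _ := by ring
      have h10 : (1 : ℝ) + c * (2 / (p : ℝ)) ≤ (1 + 2 / (p : ℝ)) ^ c' := by
        have h11 : (1 : ℝ) + c' * (2 / (p : ℝ)) ≤ (1 + 2 / (p : ℝ)) ^ c' := by
          apply one_add_mul_le_pow
          have : 0 ≤ 2 / (p : ℝ) := by positivity
          linarith
        refine le_trans ?_ h11
        gcongr
      have h12 : 0 ≤ (1 - (e : ℝ) / p) * (1 - (t : ℝ) / p) := by linarith
      exact h4.trans (mul_le_mul_of_nonneg_left h10 h12)
  have hnonneg : ∀ p ∈ S, 0 ≤ (1 - (om (Fin.append A A') (Fin.append be be') p : ℝ) / p) := by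
    intro p hpS
    have hp : p.Prime := (Finset.mem_filter.1 hpS).2
    have hp0 : (0 : ℝ) < p := by exact_mod_cast hp.pos
    have : (om (Fin.append A A') (Fin.append be be') p : ℝ) / p ≤ 1 := by
      rw [div_le_one hp0]
      exact_mod_cast rts_card_le _ _ _
    linarith
  refine (Finset.prod_le_prod hnonneg key).trans ?_
  rw [Finset.prod_mul_distrib]
  refine mul_le_mul_of_nonneg_right ?_ ?_
  · rw [← Finset.prod_filter, Finset.prod_const]
    apply pow_le_pow_right₀ hP1
    have : S.filter (fun p => p ≤ P0) ⊆ Icc 1 P0 := by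
      intro p hp
      rw [Finset.mem_filter] at hp
      rw [Finset.mem_Icc]
      exact ⟨(Finset.mem_filter.1 hp.1).2.one_lt.le, hp.2⟩
    refine (Finset.card_le_card this).trans ?_
    simp
  · refine Finset.prod_nonneg fun p hpS => ?_
    have hp : p.Prime := (Finset.mem_filter.1 hpS).2
    have hp0 : (0 : ℝ) < p := by exact_mod_cast hp.pos
    have h1 : (om A be p : ℝ) / p ≤ 1 := by
      rw [div_le_one hp0]
      exact_mod_cast rts_card_le _ _ _
    have h2 : (om A' be' p : ℝ) / p ≤ 1 := by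
      rw [div_le_one hp0]
      exact_mod_cast rts_card_le _ _ _
    have h3 : 0 ≤ 1 - (om A be p : ℝ) / p := by linarith
    have h4 : 0 ≤ 1 - (om A' be' p : ℝ) / p := by linarith
    positivity

end

end Pool.Agent.Q184.LF
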